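import Pool.Agent.H93.EN.Targets4

/-! CH: the radial mollifier. -/

set_option autoImplicit false

namespace Pool.Agent.H37.EN

open MeasureTheory Set Metric Filter Topology Pool.Agent.H93.EN
open Pool.Agent.H93.BL hiding T_B1 T_B2 T_B3 T_SB T_SC
open scoped ContDiff

theorem CH_bmp_contDiff : ContDiff ℝ ∞ bmp := by
  unfold bmp
  exact Real.smoothTransition.contDiff.comp (contDiff_const.sub (contDiff_norm_sq ℝ))

theorem CH_bmp_nonneg (x : ℂ) : 0 ≤ bmp x := Real.smoothTransition.nonneg _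

theorem CH_bmp_le (x : ℂ) : bmp x ≤ 1 := Real.smoothTransition.le_one _

theorem CH_bmp_zero (x : ℂ) (hx : 1 ≤ ‖x‖) : bmp x = 0 := by
  unfold bmp
  refine Real.smoothTransition.zero_of_nonpos ?_
  nlinarith

theorem CH_bmp_pos : 0 < bmp 0 := by
  unfold bmp
  refine Real.smoothTransition.pos_of_pos ?_
  simp

theorem CH_cpt {f : ℂ → ℝ} (R : ℝ) (hf : ∀ x, R ≤ ‖x‖ → f x = 0) : HasCompactSupport f := by
  refine HasCompactSupport.intro (isCompact_closedBall (0 : ℂ) R) fun x hx => hf x ?_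
  rw [mem_closedBall, dist_zero_right, not_le] at hx
  exact hx.le

theorem CH_int_pos : 0 < ∫ y, bmp y :=
  CH_bmp_contDiff.continuous.integral_pos_of_hasCompactSupport_nonneg_nonzero
    (CH_cpt 1 CH_bmp_zero) CH_bmp_nonneg CH_bmp_pos.ne'

theorem CH_fderiv_bound : ∃ K : ℝ, 0 ≤ K ∧ ∀ x, ‖fderiv ℝ bmp x‖ ≤ K := by
  have h1 : Continuous (fderiv ℝ bmp) := CH_bmp_contDiff.continuous_fderiv (by simp)
  have h2 : HasCompactSupport (fderiv ℝ bmp) := (CH_cpt 1 CH_bmp_zero).fderiv (𝕜 := ℝ)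
  obtain ⟨K, hK⟩ := h1.bounded_above_of_compact_support h2
  exact ⟨K, (norm_nonneg _).trans (hK 0), hK⟩

theorem CH_chi_eq (δ : ℝ) (x : ℂ) : chi δ x = (δ ^ 2 * ∫ y, bmp y)⁻¹ * bmp (δ⁻¹ • x) := by
  unfold chi
  rw [Complex.real_smul]

theorem CH_hasFDerivAt (δ : ℝ) (x : ℂ) : HasFDerivAt (chi δ)
    ((δ ^ 2 * ∫ y, bmp y)⁻¹ • ((fderiv ℝ bmp (δ⁻¹ • x)).comp
      (δ⁻¹ • ContinuousLinearMap.id ℝ ℂ))) x := by
  have h1 : HasFDerivAt bmp (fderiv ℝ bmp (δ⁻¹ • x)) (δ⁻¹ • x) :=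
    (CH_bmp_contDiff.differentiable (by simp) _).hasFDerivAt
  have h2 : HasFDerivAt (fun x : ℂ => δ⁻¹ • x) (δ⁻¹ • ContinuousLinearMap.id ℝ ℂ) x :=
    (hasFDerivAt_id x).const_smul δ⁻¹
  have h3 := (h1.comp x h2).const_smul (δ ^ 2 * ∫ y, bmp y)⁻¹
  refine h3.congr_of_eventuallyEq (Filter.Eventually.of_forall fun y => ?_)
  rw [CH_chi_eq]
  rfl

theorem ch : T_CH := by
  refine ⟨CH_bmp_contDiff, fun x => ⟨CH_bmp_nonneg x, CH_bmp_le x⟩, CH_bmp_zero, CH_int_pos, ?_⟩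
  obtain ⟨K, hK0, hK⟩ := CH_fderiv_bound
  set I0 : ℝ := ∫ y, bmp y with hI0
  have hI : 0 < I0 := CH_int_pos
  refine ⟨I0⁻¹ * (1 + 2 * K), by positivity, fun δ hδ => ?_⟩
  have hc : 0 < (δ ^ 2 * I0)⁻¹ := by positivity
  have hzero : ∀ x : ℂ, δ ≤ ‖x‖ → chi δ x = 0 := by
    intro x hx
    rw [CH_chi_eq, CH_bmp_zero, mul_zero]
    rw [norm_smul, norm_inv, Real.norm_eq_abs, abs_of_pos hδ, ← div_eq_inv_mul, one_le_div hδ]
    exact hx
  have hnn : ∀ x : ℂ, 0 ≤ chi δ x := by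
    intro x
    rw [CH_chi_eq]
    exact mul_nonneg hc.le (CH_bmp_nonneg _)
  have hcd : ContDiff ℝ ∞ (chi δ) := by
    have h1 : chi δ = fun x => (δ ^ 2 * I0)⁻¹ * bmp (δ⁻¹ • x) := funext fun x => CH_chi_eq δ x
    rw [h1]
    exact contDiff_const.mul (CH_bmp_contDiff.comp (contDiff_const_smul δ⁻¹))
  have hfd : ∀ x : ℂ, ‖fderiv ℝ (chi δ) x‖ ≤ (δ ^ 2 * I0)⁻¹ * (K * δ⁻¹) := by
    intro x
    rw [(CH_hasFDerivAt δ x).fderiv, norm_smul, Real.norm_eq_abs, abs_of_pos hc]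
    refine mul_le_mul_of_nonneg_left ?_ hc.le
    refine (ContinuousLinearMap.opNorm_comp_le _ _).trans ?_
    refine mul_le_mul (hK _) ?_ (norm_nonneg _) hK0
    rw [norm_smul, Real.norm_eq_abs, abs_of_pos (inv_pos.2 hδ)]
    exact mul_le_of_le_one_right (inv_pos.2 hδ).le ContinuousLinearMap.norm_id_le
  have hz : ∀ x : ℂ, δ ≤ ‖x‖ → fderiv ℝ (chi δ) x = 0 := by
    intro x hx
    have h1 : IsLocalMin (chi δ) x := by
      refine Filter.Eventually.of_forall fun y => ?_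
      show chi δ x ≤ chi δ y
      rw [hzero x hx]
      exact hnn y
    exact h1.fderiv_eq_zero
  refine ⟨hcd, CH_cpt δ hzero, fun x => ⟨hnn x, ?_⟩, hzero, ?_, ?_, ?_, ?_, ?_⟩
  · rw [CH_chi_eq]
    have h1 : (δ ^ 2 * I0)⁻¹ * bmp (δ⁻¹ • x) ≤ (δ ^ 2 * I0)⁻¹ * 1 :=
      mul_le_mul_of_nonneg_left (CH_bmp_le _) hc.le
    refine h1.trans ?_
    rw [mul_one, mul_inv, le_div_iff₀ (by positivity)]
    have h2 : (δ ^ 2)⁻¹ * I0⁻¹ * δ ^ 2 = I0⁻¹ := by
      field_simp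
    rw [h2]
    have h3 : 0 < I0⁻¹ := inv_pos.2 hI
    nlinarith
  · have h1 : ∫ x, chi δ x = (δ ^ 2 * I0)⁻¹ * ∫ x : ℂ, bmp (δ⁻¹ • x) := by
      rw [← integral_const_mul]
      exact integral_congr_ae (ae_of_all _ fun x => CH_chi_eq δ x)
    rw [h1, Measure.integral_comp_smul, Complex.finrank_real_complex, ← hI0, smul_eq_mul, inv_pow,
      inv_inv, abs_of_pos (by positivity)]
    field_simp
  · intro x y hxy
    rw [CH_chi_eq, CH_chi_eq]
    unfold bmp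
    rw [norm_smul, norm_smul, hxy]
  · unfold gchi
    have h1 : Continuous (fderiv ℝ (chi δ)) := hcd.continuous_fderiv (by simp)
    have h2 : ∀ v : ℂ, Continuous fun x => fderiv ℝ (chi δ) x v := fun v =>
      h1.clm_apply continuous_const
    exact (Complex.continuous_ofReal.comp (h2 1)).add
      ((Complex.continuous_ofReal.comp (h2 Complex.I)).mul continuous_const)
  · intro x
    unfold gchi
    have h1 : ‖((fderiv ℝ (chi δ) x 1 : ℝ) : ℂ)‖ ≤ (δ ^ 2 * I0)⁻¹ * (K * δ⁻¹) := by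
      rw [Complex.norm_real]
      refine (ContinuousLinearMap.le_opNorm _ _).trans ?_
      rw [norm_one, mul_one]
      exact hfd x
    have h2 : ‖((fderiv ℝ (chi δ) x Complex.I : ℝ) : ℂ) * Complex.I‖ ≤
        (δ ^ 2 * I0)⁻¹ * (K * δ⁻¹) := by
      rw [norm_mul, Complex.norm_real, Complex.norm_I, mul_one]
      refine (ContinuousLinearMap.le_opNorm _ _).trans ?_
      rw [Complex.norm_I, mul_one]
      exact hfd x
    refine (norm_add_le _ _).trans ((add_le_add h1 h2).trans ?_)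
    rw [le_div_iff₀ (by positivity)]
    have h3 : ((δ ^ 2 * I0)⁻¹ * (K * δ⁻¹) + (δ ^ 2 * I0)⁻¹ * (K * δ⁻¹)) * δ ^ 3 =
        I0⁻¹ * (2 * K) := by
      field_simp
      ring
    rw [h3]
    have h4 : 0 < I0⁻¹ := inv_pos.2 hI
    nlinarith
  · intro x hx
    unfold gchi
    rw [hz x hx]
    simp

end Pool.Agent.H37.EN
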