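import Pool.Agent.H93.EN.Targets4
import Pool.Agent.H93.BL.Final

/-! FL1: along an orbit which is trapped in both directions the indicator function is one. -/

set_option autoImplicit false

namespace Pool.Agent.H37.EN

open MeasureTheory Set Metric Filter Topology Pool.Agent.H93.EN
open Pool.Agent.H93.BL hiding T_B1 T_B2 T_B3 T_SB T_SC
open Pool.Agent.H93.BL.Final

section

variable {ι : Type} (P : Polygon ι)

theorem FL1_pos_not {z : ι × ℝ × ℝ} (hz : P.Phase z) : P.pos z ∉ P.Ω := by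
  intro hin
  have h1 : P.pos z ∈ frontier P.Ω := by
    rw [P.frontier_eq, mem_iUnion]
    exact ⟨z.1, openSegment_subset_segment ℝ _ _ (P.pos_mem hz)⟩
  rw [P.isOpen.frontier_eq] at h1
  exact h1.2 hin

theorem FL1_back {U : Set ℂ} (hU : U ⊆ P.Ω) (p w : ℂ) (T t : ℝ) (hp : p ∉ P.Ω) (ht : 0 < t)
    (htT : t ≤ T) (hseg : ∀ r ∈ Ioo 0 T, p + (r : ℂ) * w ∈ P.Ω)
    (hx : t < T ∨ p + (t : ℂ) * w ∉ P.Ω) (h : Sg P U (p + (t : ℂ) * w) (-w)) : Sg P U p w := by
  have key : ∀ a : ℝ, p + ((t : ℝ) : ℂ) * w + ((a : ℝ) : ℂ) * (-w) =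
      p + ((t - a : ℝ) : ℂ) * w := by
    intro a
    push_cast
    ring
  obtain ⟨r, hr, hrU, hr'⟩ := h
  have hrt : r < t := by
    by_contra hcon
    have h1 := hr' t ⟨ht, not_lt.1 hcon⟩
    rw [key, sub_self] at h1
    apply hp
    simpa using h1
  rw [key] at hrU
  have haT : t - r < T := by
    rcases hx with hx | hx
    · linarith
    · rcases lt_or_eq_of_le hr with h0 | h0
      · linarith
      · exfalso
        apply hx
        have h1 := hU hrU
        rw [← h0, sub_zero] at h1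
        exact h1
  exact ⟨t - r, by linarith, hrU, fun r' h' => hseg r' ⟨h'.1, by linarith [h'.2]⟩⟩

theorem FL1_chain {f : ℤ → ι × ℝ × ℝ} (hf : ∀ n, P.Step (f n) (f (n + 1))) (k : ℤ)
    (z' : ι × ℝ × ℝ) (h : Relation.ReflTransGen P.Step (f k) z') : ∃ n, z' = f n := by
  induction h with
  | refl => exact ⟨k, rfl⟩
  | @tail b c _ hbc ih =>
    obtain ⟨n, rfl⟩ := ih
    exact ⟨n + 1, ((pB3 ι P (f n) c (f (n + 1))).1 hbc (hf n))⟩

theorem FL1_chain' {f : ℤ → ι × ℝ × ℝ} (hf : ∀ n, P.Step (f n) (f (n + 1))) (k : ℤ)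
    (z' : ι × ℝ × ℝ)
    (h : Relation.ReflTransGen P.Step ((f k).1, (f k).2.1, -(f k).2.2) z') :
    ∃ n, z' = ((f n).1, (f n).2.1, -(f n).2.2) := by
  induction h with
  | refl => exact ⟨k, rfl⟩
  | @tail b c _ hbc ih =>
    obtain ⟨n, rfl⟩ := ih
    have h1 := (pB3 ι P (f (n - 1)) (f n) (f n)).2.2 (by
      have := hf (n - 1)
      rwa [sub_add_cancel] at this)
    exact ⟨n - 1, (pB3 ι P _ c _).1 hbc h1⟩

theorem FL1_dir_rev (z : ι × ℝ × ℝ) : P.dir (z.1, z.2.1, -z.2.2) = P.refl z.1 (-P.dir z) := by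
  have h1 := P.refl_dir z.1 z.2.1 z.2.2
  rw [P.refl_neg]
  rw [show (z.1, z.2.1, z.2.2) = z from rfl] at h1
  rw [h1, neg_neg]

end

theorem fl1 (h1 : T_RUH) : T_FL1 := by
  intro ι _ P E U hU f hf
  have hst : ∀ n, P.Step (f n) (f (n + 1)) := fun n => (hf n).1
  have hph : ∀ n, P.Phase (f n) := fun n => (hst n).1
  obtain ⟨-, hph1, T, hT, hpos1, hseg, hdir1⟩ := hst 0
  rw [zero_add] at hph1 hpos1 hdir1
  refine ⟨T, hT, fun t ht => ?_⟩
  set w : ℂ := P.dir (f 0) with hw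
  set p : ℂ := P.pos (f 0) with hp
  have hpn : p ∉ P.Ω := FL1_pos_not P (hph 0)
  have hSg0 : ¬ Sg P U p w := (hf 0).2.2
  have hx : p + (t : ℂ) * w ∈ P.Ω := hseg t ht
  have hfwd : ¬ RU P E U (p + (t : ℂ) * w) w := by
    have h2 := h1 ι P E U (p + (t : ℂ) * w) w (T - t) (f 1) hph1 (by linarith [ht.2]) (by
      rw [hpos1]
      push_cast
      ring) (by
      intro r hr
      have h3 := hseg (t + r) ⟨by linarith [ht.1, hr.1], by linarith [hr.2]⟩
      push_cast at h3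
      rw [show p + (t : ℂ) * w + (r : ℂ) * w = p + ((t : ℂ) + (r : ℂ)) * w by ring]
      exact h3) hdir1
    rw [h2]
    rintro (⟨r, hr, hrU, hr'⟩ | ⟨z', hz', hz''⟩)
    · apply hSg0
      refine ⟨t + r, by linarith [ht.1], ?_, fun r' h' => ?_⟩
      · push_cast
        rw [show p + ((t : ℂ) + (r : ℂ)) * w = p + (t : ℂ) * w + (r : ℂ) * w by ring]
        exact hrU
      · rcases le_or_gt r' t with h | h
        · exact hseg r' ⟨h'.1, by linarith [ht.2]⟩
        · have h3 := hr' (r' - t) ⟨by linarith, by linarith [h'.2]⟩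
          push_cast at h3
          rw [show p + (t : ℂ) * w + ((r' : ℂ) - (t : ℂ)) * w = p + (r' : ℂ) * w by ring] at h3
          exact h3
    · obtain ⟨n, rfl⟩ := FL1_chain P hst 1 z' hz'
      rcases hz'' with h | h
      · exact (hf n).2.1 h
      · exact (hf n).2.2 h
  have hbwd : ¬ RU P E U (p + (t : ℂ) * w) (-w) := by
    have h2 := h1 ι P E U (p + (t : ℂ) * w) (-w) t ((f 0).1, (f 0).2.1, -(f 0).2.2)
      (P.phase_rev (hph 0)) ht.1 (by
      rw [show P.pos ((f 0).1, (f 0).2.1, -(f 0).2.2) = p from rfl]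
      ring) (by
      intro r hr
      have h3 := hseg (t - r) ⟨by linarith [hr.2], by linarith [ht.2, hr.1]⟩
      push_cast at h3
      rw [show p + (t : ℂ) * w + (r : ℂ) * (-w) = p + ((t : ℂ) - (r : ℂ)) * w by ring]
      exact h3) (FL1_dir_rev P (f 0))
    rw [h2]
    rintro (h | ⟨z', hz', hz''⟩)
    · exact hSg0 (FL1_back P hU p w T t hpn ht.1 ht.2.le hseg (Or.inl ht.2) h)
    · obtain ⟨n, rfl⟩ := FL1_chain' P hst 0 z' hz'
      rcases hz'' with h | h
      · exact (hf n).2.1 h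
      · obtain ⟨-, -, T', hT', hpos', hseg', hdir'⟩ := hst (n - 1)
        rw [sub_add_cancel] at hpos' hdir'
        have hd : P.dir ((f n).1, (f n).2.1, -(f n).2.2) = -P.dir (f (n - 1)) := by
          rw [FL1_dir_rev, hdir', P.refl_neg, P.refl_refl]
        rw [show P.pos ((f n).1, (f n).2.1, -(f n).2.2) = P.pos (f n) from rfl, hd, hpos'] at h
        refine (hf (n - 1)).2.2 (FL1_back P hU _ _ T' T' (FL1_pos_not P (hph (n - 1))) hT' le_rfl
          hseg' (Or.inr ?_) h)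
        rw [← hpos']
        exact FL1_pos_not P (hph n)
  unfold FE
  rw [if_pos ⟨hx, P.norm_dir _, hfwd, hbwd⟩]

end Pool.Agent.H37.EN
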