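import Pool.Agent.H93.EN.Targets4
import Pool.Agent.H93.BL.Final

/-! HC: continuity of the first hit from inner points. -/

set_option autoImplicit false

namespace Pool.Agent.H37.EN

open MeasureTheory Set Metric Filter Topology Pool.Agent.H93.EN
open Pool.Agent.H93.BL hiding T_B1 T_B2 T_B3 T_SB T_SC
open Pool.Agent.H93.BL.Final

section

variable {ι : Type} (P : Polygon ι)

/-- time of the hit of the line of the side `j` -/
noncomputable def HCt (j : ι) (q : ℂ × ℂ) : ℝ := -ip (q.1 - P.p j) (P.n j) / ip q.2 (P.n j)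

/-- arclength of the hit -/
noncomputable def HCs (j : ι) (q : ℂ × ℂ) : ℝ :=
  ip (q.1 + ((HCt P j q : ℝ) : ℂ) * q.2 - P.p j) (P.u j)

/-- angle of the hit -/
noncomputable def HCf (j : ι) (q : ℂ × ℂ) : ℝ := Real.arcsin (-ip q.2 (P.u j))

theorem HC_t_cont (j : ι) (q : ℂ × ℂ) (h : ip q.2 (P.n j) ≠ 0) : ContinuousAt (HCt P j) q := by
  unfold HCt
  have h1 : Continuous fun q : ℂ × ℂ => -ip (q.1 - P.p j) (P.n j) := by
    unfold ip
    fun_prop
  have h2 : Continuous fun q : ℂ × ℂ => ip q.2 (P.n j) := by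
    unfold ip
    fun_prop
  exact h1.continuousAt.div h2.continuousAt h

theorem HC_s_cont (j : ι) (q : ℂ × ℂ) (h : ip q.2 (P.n j) ≠ 0) : ContinuousAt (HCs P j) q := by
  have h1 := HC_t_cont P j q h
  have h2 : Continuous fun a : ℂ => ip a (P.u j) := by
    unfold ip
    fun_prop
  have h3 : ContinuousAt (fun q : ℂ × ℂ => q.1 + ((HCt P j q : ℝ) : ℂ) * q.2 - P.p j) q :=
    (continuousAt_fst.add ((Complex.continuous_ofReal.continuousAt.comp h1).mul
      continuousAt_snd)).sub continuousAt_const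
  exact h2.continuousAt.comp h3

theorem HC_f_cont (j : ι) (q : ℂ × ℂ) : ContinuousAt (HCf P j) q := by
  unfold HCf
  have h1 : Continuous fun q : ℂ × ℂ => -ip q.2 (P.u j) := by
    unfold ip
    fun_prop
  exact (Real.continuous_arcsin.comp h1).continuousAt

/-- the phase coordinates of a hit -/
theorem HC_coord (z : ι × ℝ × ℝ) (hz : P.Phase z) (y w : ℂ) (t : ℝ)
    (hpos : P.pos z = y + (t : ℂ) * w) (hdir : P.dir z = P.refl z.1 w) :
    ip w (P.n z.1) < 0 ∧ z.2.1 = HCs P z.1 (y, w) ∧ z.2.2 = HCf P z.1 (y, w) := by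
  have hn : ip w (P.n z.1) < 0 := by
    have h1 := P.ip_dir_n z
    rw [hdir, P.ip_refl_n] at h1
    have h2 := P.cos_pos_of_phase hz
    linarith
  have hp : P.pos z - P.p z.1 = ((z.2.1 : ℝ) : ℂ) * P.u z.1 := by
    unfold Polygon.pos
    ring
  have ht : t = HCt P z.1 (y, w) := by
    unfold HCt
    rw [eq_div_iff hn.ne]
    have h1 : ip (P.pos z - P.p z.1) (P.n z.1) = 0 := by
      rw [hp, ip_smul_left, P.ip_u_n, mul_zero]
    have h2 : P.pos z - P.p z.1 = (y - P.p z.1) + ((t : ℝ) : ℂ) * w := by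
      rw [hpos]
      ring
    rw [h2, ip_add_left, ip_smul_left] at h1
    linarith
  refine ⟨hn, ?_, ?_⟩
  · unfold HCs
    rw [← ht]
    show z.2.1 = ip (y + ((t : ℝ) : ℂ) * w - P.p z.1) (P.u z.1)
    rw [← hpos, hp, ip_smul_left, P.ip_u_u, mul_one]
  · unfold HCf
    have h1 := P.ip_dir_u z
    rw [hdir, P.ip_refl_u] at h1
    show z.2.2 = Real.arcsin (-ip w (P.u z.1))
    rw [h1, neg_neg, Real.arcsin_sin hz.2.2.1.le hz.2.2.2.le]

end

theorem hc : T_HC := by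
  intro ι _ P y w z t hy hw hz ht hpos hseg hdir ε hε
  obtain ⟨hn, hs, hφ⟩ := HC_coord P z hz y w t hpos hdir
  have hHit : P.Hit y w z.1 t := by
    refine ⟨ht, hseg, ?_, hn⟩
    rw [← hpos]
    exact P.pos_mem hz
  obtain ⟨ε₀, hε₀, h0⟩ := pG5a ι P y w z.1 t hy hHit
  obtain ⟨ε₁, hε₁, h1⟩ := Metric.continuousAt_iff.1 (HC_s_cont P z.1 (y, w) hn.ne) ε hε
  obtain ⟨ε₂, hε₂, h2⟩ := Metric.continuousAt_iff.1 (HC_f_cont P z.1 (y, w)) ε hε
  refine ⟨min ε₀ (min ε₁ ε₂), lt_min hε₀ (lt_min hε₁ hε₂), fun y' w' hy' hw' hww => ?_⟩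
  have hya := hy'.trans_le (min_le_left _ _)
  have hwa := hww.trans_le (min_le_left _ _)
  obtain ⟨t', ht', hseg', hmem', hn'⟩ := h0 y' w' hya hwa
  have hinn : P.inn z.1 (y' + (t' : ℂ) * w') (P.refl z.1 w') := by
    refine ⟨hmem', ?_, ?_⟩
    · rw [P.norm_refl, hw']
    · rw [P.ip_refl_n]
      linarith
  obtain ⟨s, φ, hph, hps, hdr⟩ := pB2 ι P z.1 _ _ hinn
  obtain ⟨-, hs', hφ'⟩ := HC_coord P (z.1, s, φ) hph y' w' t' hps hdr
  have hd : dist (y', w') (y, w) < min ε₁ ε₂ := by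
    rw [Prod.dist_eq]
    exact max_lt (hy'.trans_le (min_le_right _ _)) (hww.trans_le (min_le_right _ _))
  refine ⟨s, φ, t', ?_, ?_, ht', hph, hps, hseg', hdr⟩
  · have h3 := h1 (hd.trans_le (min_le_left _ _))
    rw [← hs, Real.dist_eq] at h3
    have h4 : s = HCs P z.1 (y', w') := hs'
    rw [h4]
    exact h3
  · have h3 := h2 (hd.trans_le (min_le_right _ _))
    rw [← hφ, Real.dist_eq] at h3
    have h4 : φ = HCf P z.1 (y', w') := hφ'
    rw [h4]
    exact h3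

end Pool.Agent.H37.EN
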