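import Pool.Agent.H93.EN.Targets4

/-! RE: `Reach` and `RU`. -/

set_option autoImplicit false

namespace Pool.Agent.H37.EN

open MeasureTheory Set Metric Filter Topology Pool.Agent.H93.EN
open Pool.Agent.H93.BL hiding T_B1 T_B2 T_B3 T_SB T_SC

theorem RE_sg {ι : Type} (P : Polygon ι) (y v : ℂ) : ¬ Sg P ∅ y v := by
  rintro ⟨r, -, h, -⟩
  exact h

theorem re : T_RE := by
  intro ι P E y v
  constructor
  · rintro (h | ⟨z, hz, ht, hd, z', hz', h⟩)
    · exact absurd h (RE_sg P y v)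
    · refine ⟨z, hz, ht, hd, z', hz', ?_⟩
      rcases h with h | h
      · exact h
      · exact absurd h (RE_sg P _ _)
  · rintro ⟨z, hz, ht, hd, z', hz', h⟩
    exact Or.inr ⟨z, hz, ht, hd, z', hz', Or.inl h⟩

end Pool.Agent.H37.EN
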