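import Pool.Agent.H93.EN.Targets4

/-! RF: moving along a segment in the table. -/

set_option autoImplicit false

namespace Pool.Agent.H37.EN

open MeasureTheory Set Metric Filter Topology Pool.Agent.H93.EN
open Pool.Agent.H93.BL hiding T_B1 T_B2 T_B3 T_SB T_SC

theorem rfT : T_RF := by
  intro ι P E U y w t ht hw hΩ
  have hop : IsOpen P.Ω := P.isOpen
  have key : ∀ a : ℝ, y + ((t : ℝ) : ℂ) * w + ((a : ℝ) : ℂ) * w = y + ((t + a : ℝ) : ℂ) * w := by
    intro a
    push_cast
    ring
  have keyn : ∀ a : ℝ, y + ((t : ℝ) : ℂ) * w + ((a : ℝ) : ℂ) * (-w) =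
      y + ((t - a : ℝ) : ℂ) * w := by
    intro a
    push_cast
    ring
  refine ⟨?_, ?_⟩
  · rintro (⟨r, hr, hU, hr'⟩ | ⟨z, hz, ⟨t₁, ht₁, hpos, hseg⟩, hdir, hPR⟩)
    · refine Or.inl ⟨t + r, by linarith, ?_, ?_⟩
      · rw [← key]
        exact hU
      · intro r' h'
        rcases le_or_gt r' t with h | h
        · exact hΩ r' ⟨h'.1, h⟩
        · have h2 := hr' (r' - t) ⟨by linarith, by linarith [h'.2]⟩
          rw [key, add_sub_cancel] at h2
          exact h2
    · refine Or.inr ⟨z, hz, ⟨t + t₁, by linarith, ?_, ?_⟩, hdir, hPR⟩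
      · rw [hpos, key]
      · intro r' h'
        rcases le_or_gt r' t with h | h
        · exact hΩ r' ⟨h'.1, h⟩
        · have h2 := hseg (r' - t) ⟨by linarith, by linarith [h'.2]⟩
          rw [key, add_sub_cancel] at h2
          exact h2
  · intro hy
    rintro (⟨r, hr, hU, hr'⟩ | ⟨z, hz, ⟨t₁, ht₁, hpos, hseg⟩, hdir, hPR⟩)
    · rcases le_or_gt t r with h | h
      · refine Or.inl (Or.inl ⟨r - t, by linarith, ?_, ?_⟩)
        · rw [key, add_sub_cancel]
          exact hU
        · intro r' h'
          rw [key]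
          exact hr' (t + r') ⟨by linarith [h'.1], by linarith [h'.2]⟩
      · refine Or.inr ⟨t - r, by linarith, ?_, ?_⟩
        · rw [keyn, sub_sub_cancel]
          exact hU
        · intro r' h'
          rw [keyn]
          rcases eq_or_lt_of_le (show 0 ≤ t - r' by linarith [h'.2]) with h0 | h0
          · rw [← h0]
            simpa using hy
          · exact hΩ _ ⟨h0, by linarith [h'.1]⟩
    · have hnot : P.pos z ∉ P.Ω := by
        intro hin
        have h1 : P.pos z ∈ frontier P.Ω := by
          rw [P.frontier_eq, mem_iUnion]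
          exact ⟨z.1, openSegment_subset_segment ℝ _ _ (P.pos_mem hz)⟩
        rw [hop.frontier_eq] at h1
        exact h1.2 hin
      have htt : t < t₁ := by
        by_contra h
        exact hnot (hpos ▸ hΩ t₁ ⟨ht₁, not_lt.1 h⟩)
      refine Or.inl (Or.inr ⟨z, hz, ⟨t₁ - t, by linarith, ?_, ?_⟩, hdir, hPR⟩)
      · rw [key, add_sub_cancel]
        exact hpos
      · intro r' h'
        rw [key]
        exact hseg (t + r') ⟨by linarith [h'.1], by linarith [h'.2]⟩

end Pool.Agent.H37.EN
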